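import Pool.Agent.Y409.KB.Quo
import Pool.Agent.Y151.KB.Step
import Pool.Agent.Y153.KB.Chain
import Pool.Agent.Y420.KB.Mean
import Pool.Agent.Y899.KB.Bla
import Pool.Agent.Y87.KB.NZ
import Pool.Agent.Y410.KB.Num
import Pool.Agent.Y606.KB.Int
import Pool.Agent.Y931.KB.FIN
import Pool.Agent.Y41.KB.RATE
import Pool.Agent.Y383.KB.LG
import Pool.Agent.Y922.KB.Reg
import Pool.Agent.Y436.KB.Lint
import Pool.Agent.Y487.KB.LFin
import Pool.Agent.Y975.KB.Lpt

/-!
# The constants of the maximum principle of the Bergman spaces: rates of convergence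

Let `c(p)` be the largest constant in Korenblum's maximum principle for the Bergman space `A^p`. Then
`1 - C p^(-1/3) ≤ c(p)` for all `p ≥ 1`, in particular `c(p)` tends to `1`, and `c(p) ≤ 1 - (1/8) p^(-1/2)` for all
`p ≥ 16`.
-/

set_option autoImplicit false

open Metric MeasureTheory

namespace Pool.Agent.Results.MP_ccab6c_an.RateOfConvergence

/-- The number `r ∈ [0, 1)` is admissible for `p`: for all `f`, `g` analytic in the unit disc with `|f| ≤ |g|` in the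
annulus `r < |z| < 1` the integral of `|f|^p` over the disc is at most that of `|g|^p` (both may be infinite). -/
def Admissible (p r : ℝ) : Prop :=
  0 ≤ r ∧ r < 1 ∧ ∀ f g : ℂ → ℂ, DifferentiableOn ℂ f (ball 0 1) → DifferentiableOn ℂ g (ball 0 1) →
    (∀ z : ℂ, r < ‖z‖ → ‖z‖ < 1 → ‖f z‖ ≤ ‖g z‖) →
    ∫⁻ z in ball (0 : ℂ) 1, ‖f z‖ₑ ^ p ≤ ∫⁻ z in ball (0 : ℂ) 1, ‖g z‖ₑ ^ p

/-- The constant `c(p)`: the supremum of the admissible numbers. -/
noncomputable def c (p : ℝ) : ℝ := sSup {r : ℝ | Admissible p r}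

/-- There is a constant `C` such that `1 - C p^(-1/3) ≤ c(p)` for all `p ≥ 1`, and `1 - ε` is itself admissible for `p`
as soon as `0 < ε ≤ 1/2` and `p ≥ C / ε^3`. For all `p ≥ 16` on the other hand `c(p) ≤ 1 - (1/8) p^(-1/2)`. -/
theorem result : (∃ C : ℝ, 0 < C ∧ (∀ p : ℝ, 1 ≤ p → 1 - C * p ^ (-(1 / 3) : ℝ) ≤ c p) ∧
      ∀ ε p : ℝ, 0 < ε → ε ≤ 1 / 2 → C / ε ^ 3 ≤ p → Admissible p (1 - ε)) ∧
    ∀ p : ℝ, 16 ≤ p → c p ≤ 1 - (1 / 8) * p ^ (-(1 / 2) : ℝ) := by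
  have hconc : Y922.KB.Conc := Y931.KB.t_FIN Y409.KB.t_QUO Y151.KB.t_STEP Y153.KB.t_CHAIN Y420.KB.t_MEAN
    Y899.KB.t_BLA Y87.KB.t_NZ Y922.KB.t_REG Y410.KB.t_NUM Y606.KB.t_INT
  obtain ⟨C₂, hC₂, h₂⟩ := Y41.KB.t_RATE hconc
  obtain ⟨C₁, hC₁, h₁⟩ := hconc
  refine ⟨⟨C₁ + C₂, by linarith, fun p hp => ?_, fun ε p hε hε' hp => ⟨by linarith, by linarith, fun f g hf hg hfg => ?_⟩⟩,
    fun p hp => ?_⟩
  · have h3 := h₂ p hp
    have h4 : 0 ≤ C₁ * p ^ (-(1 / 3) : ℝ) := by positivity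
    have h5 : c p = sSup (Y922.KB.Adm p) := rfl
    rw [h5]
    linarith
  · have h3 : C₁ / ε ^ 3 ≤ p := by
      refine le_trans ?_ hp
      gcongr
      linarith
    exact h₁ ε p f g hε hε' h3 hf hg fun z hz => hfg z hz.1 hz.2
  · have hp0 : 0 < p := by linarith
    set q : ℝ := p ^ (-(1 / 2) : ℝ) with hq
    have hq0 : 0 < q := Real.rpow_pos_of_pos hp0 _
    have hq2 : p * q ^ 2 = 1 := by
      rw [hq, ← Real.rpow_natCast, ← Real.rpow_mul hp0.le]
      norm_num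
      rw [Real.rpow_neg_one, mul_inv_cancel₀ hp0.ne']
    have hq4 : q ≤ 1 / 4 := by
      by_contra hcon
      push Not at hcon
      have : 1 < p * q ^ 2 := by nlinarith
      linarith
    refine Real.sSup_le (fun r hr => ?_) (by linarith)
    exact Y487.KB.t_LFIN Y436.KB.t_LINT Y975.KB.t_LPT Y383.KB.t_LG (1 / 8 * q) p (by linarith) (by linarith) (by linarith)
      (by nlinarith) r hr

end Pool.Agent.Results.MP_ccab6c_an.RateOfConvergence
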